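import Mathlib

set_option autoImplicit false

namespace Pool.Agent.Work.MP_123300_co

/-- `IsEmbeddedTree S`: the subset `S` of the metric space `M`, with the metric of `M`, is a finite
tree whose edges are segments of positive real length (all interior points of the edges included),
with its path metric. It is built from one point by finitely many steps; each step attaches to a
point `y` of the tree `S` built so far a new segment `γ([0,ℓ])` of length `ℓ > 0` with `γ 0 = y`,
every path from a point of `S` to a point of the new segment passing through `y`. -/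
inductive IsEmbeddedTree {M : Type} [MetricSpace M] : Set M → Prop
  | point (x : M) : IsEmbeddedTree {x}
  | attach (S : Set M) (hS : IsEmbeddedTree S) (y : M) (hy : y ∈ S) (ℓ : ℝ) (hℓ : 0 < ℓ)
      (γ : ℝ → M) (hγ0 : γ 0 = y)
      (hγ : ∀ s ∈ Set.Icc 0 ℓ, ∀ s' ∈ Set.Icc 0 ℓ, dist (γ s) (γ s') = |s - s'|)
      (hd : ∀ x ∈ S, ∀ s ∈ Set.Icc 0 ℓ, dist x (γ s) = dist x y + s) :
      IsEmbeddedTree (S ∪ γ '' Set.Icc 0 ℓ)

/-- The set `T(c,r)` of the points of the tree `S` at distance at most `r` from `c`. -/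
def nbhd {M : Type} [MetricSpace M] (S : Set M) (c : M) (r : ℝ) : Set M :=
  {p | p ∈ S ∧ dist c p ≤ r}

/-- A NeST representation of `G`: an embedded tree `S`, and for each vertex `v` of `G` a
neighborhood subtree of `S` with center `c v`, radius `r v` and size (diameter) `2 * r v`, and a
tolerance `t v > 0`. -/
structure IsNeSTRep {V : Type} (G : SimpleGraph V) {M : Type} [MetricSpace M] (S : Set M)
    (c : V → M) (r t : V → ℝ) : Prop where
  tree : IsEmbeddedTree S
  center_mem : ∀ v, c v ∈ S
  radius_pos : ∀ v, 0 < r v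
  tolerance_pos : ∀ v, 0 < t v
  size_eq : ∀ v, Metric.diam (nbhd S (c v) (r v)) = 2 * r v
  adj_iff : ∀ x y, x ≠ y → (G.Adj x y ↔
    (nbhd S (c x) (r x) ∩ nbhd S (c y) (r y)).Nonempty ∧
      min (t x) (t y) ≤ Metric.diam (nbhd S (c x) (r x) ∩ nbhd S (c y) (r y)))

/-- `G` is a NeST graph. -/
def IsNeST {V : Type} (G : SimpleGraph V) : Prop :=
  ∃ (M : Type) (_ : MetricSpace M) (S : Set M) (c : V → M) (r t : V → ℝ), IsNeSTRep G S c r t

/-- `G` is a bounded NeST graph. -/
def IsBoundedNeST {V : Type} (G : SimpleGraph V) : Prop :=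
  ∃ (M : Type) (_ : MetricSpace M) (S : Set M) (c : V → M) (r t : V → ℝ),
    IsNeSTRep G S c r t ∧ ∀ v, t v ≤ 2 * r v

end Pool.Agent.Work.MP_123300_co
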