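import Mathlib

set_option autoImplicit false

namespace Pool.Agent.Work.MP_123300_co

/-- Edges of the example: `u = 0`, `b = 1`, `z_i = 2 + i`, `B_i = 5 + i`, `C_i = 8 + i`,
`v_i = 11 + i` for `i = 0, 1, 2`. -/
def E : List (ℕ × ℕ) :=
  [(0, 5), (0, 6), (0, 7), (1, 2), (1, 3), (1, 4), (1, 5), (1, 6), (1, 7), (1, 11), (1, 12),
   (1, 13), (2, 5), (3, 6), (4, 7), (5, 11), (5, 12), (5, 13), (6, 11), (6, 12), (6, 13),
   (7, 11), (7, 12), (7, 13), (2, 8), (3, 9), (4, 10), (8, 11), (9, 12), (10, 13)]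

/-- Boolean adjacency. -/
def adjB (x y : Fin 14) : Bool := decide ((x.val, y.val) ∈ E) || decide ((y.val, x.val) ∈ E)

/-- The fourteen-vertex graph. -/
def G14 : SimpleGraph (Fin 14) where
  Adj x y := adjB x y = true
  symm := ⟨by decide⟩
  loopless := ⟨by decide⟩

/-- A relaxation of bounded NeST representations of `G14`. -/
structure Model (δ : Fin 14 → Fin 14 → ℝ) (ρ : Fin 14 → ℝ) : Prop where
  symm : ∀ x y, δ x y = δ y x
  four : ∀ a b c d, δ a b + δ c d ≤ max (δ a c + δ b d) (δ a d + δ b c)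
  adj : ∀ x y, adjB x y = true → δ x y ≤ max (ρ x) (ρ y)
  nadj : ∀ x y, x ≠ y → adjB x y = false → max (ρ x) (ρ y) < δ x y

variable {δ : Fin 14 → Fin 14 → ℝ} {ρ : Fin 14 → ℝ}

theorem Model.dual (h : Model δ ρ) :
    Model (fun x y => δ x y - ρ x - ρ y) (fun x => - ρ x) := by
  refine ⟨?_, ?_, ?_, ?_⟩
  · intro x y
    simp only [h.symm x y]
    ring
  · intro a b c d
    have := h.four a b c d
    rw [le_max_iff] at this ⊢
    rcases this with h | h
    · left; linarith
    · right; linarith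
  · intro x y hxy
    have := h.adj x y hxy
    rw [le_max_iff] at this ⊢
    rcases this with h | h
    · right; linarith
    · left; linarith
  · intro x y hne hxy
    have := h.nadj x y hne hxy
    rw [max_lt_iff] at this ⊢
    constructor <;> linarith

theorem Model.c4 (h : Model δ ρ) (a b c d : Fin 14) (hac : a ≠ c) (hbd : b ≠ d)
    (h1 : adjB a b = true) (h2 : adjB b c = true) (h3 : adjB c d = true) (h4 : adjB a d = true)
    (h5 : adjB a c = false) (h6 : adjB b d = false) :
    (ρ b < ρ a ∧ ρ d < ρ a ∧ ρ b < ρ c ∧ ρ d < ρ c) ∨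
    (ρ a < ρ b ∧ ρ c < ρ b ∧ ρ a < ρ d ∧ ρ c < ρ d) := by
  have e1 := h.adj a b h1
  have e2 := h.adj b c h2
  have e3 := h.adj c d h3
  have e4 := h.adj a d h4
  have e5 := h.nadj a c hac h5
  have e6 := h.nadj b d hbd h6
  have f := h.four a c b d
  rw [h.symm c b] at f
  rw [max_lt_iff] at e5 e6
  obtain ⟨e5, e5'⟩ := e5
  obtain ⟨e6, e6'⟩ := e6
  rw [le_max_iff] at e1 e2 e3 e4 f
  by_contra hcon
  rw [not_or] at hcon
  obtain ⟨n1, n2⟩ := hcon
  rcases f with f | f
  · rcases e1 with e1 | e1 <;> rcases e3 with e3 | e3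
    · apply n1; refine ⟨?_, ?_, ?_, ?_⟩ <;> linarith
    · exfalso; linarith
    · exfalso; linarith
    · apply n2; refine ⟨?_, ?_, ?_, ?_⟩ <;> linarith
  · rcases e4 with e4 | e4 <;> rcases e2 with e2 | e2
    · exfalso; linarith
    · apply n1; refine ⟨?_, ?_, ?_, ?_⟩ <;> linarith
    · apply n2; refine ⟨?_, ?_, ?_, ?_⟩ <;> linarith
    · exfalso; linarith

/-- The final contradiction, stated for six numbers-indexed functions. -/
theorem final {Z B : Fin 3 → Fin 14} (h : Model δ ρ)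
    (hB : ∀ j, ρ 1 < ρ (B j) ∧ ρ 0 < ρ (B j)) (hZ : ∀ i, ρ (Z i) < ρ 1)
    (a1 : ∀ j, adjB 0 (B j) = true) (a2 : ∀ i, adjB 1 (Z i) = true)
    (a3 : ∀ i, adjB (B i) (Z i) = true)
    (n1 : ∀ i j, i ≠ j → B j ≠ Z i ∧ adjB (B j) (Z i) = false) : False := by
  have h01 : max (ρ 0) (ρ 1) < δ 0 1 := h.nadj 0 1 (by decide) (by decide)
  rw [max_lt_iff] at h01
  have bz : ∀ i, ρ (Z i) < ρ (B i) := fun i => (hZ i).trans (hB i).1
  have bz' : ∀ i j, ρ (Z i) < ρ (B j) := fun i j => (hZ i).trans (hB j).1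
  have P : ∀ i j, i ≠ j →
      δ (B j) (Z i) = δ 0 (Z i) + δ 1 (B j) - δ 0 1 ∧
      δ 0 (B j) + δ 1 (Z i) < δ 0 (Z i) + δ 1 (B j) ∧ ρ (B j) < δ (B j) (Z i) := by
    intro i j hij
    have e1 := h.adj 0 (B j) (a1 j)
    have e2 := h.adj 1 (Z i) (a2 i)
    have e3 := h.nadj (B j) (Z i) (n1 i j hij).1 (n1 i j hij).2
    rw [max_eq_right (hB j).2.le] at e1
    rw [max_eq_left (hZ i).le] at e2
    rw [max_eq_left (bz' i j).le] at e3
    have f1 := h.four 0 1 (B j) (Z i)
    have f2 := h.four 0 (Z i) 1 (B j)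
    rw [h.symm (Z i) (B j), h.symm (Z i) 1] at f2
    rw [le_max_iff] at f1 f2
    refine ⟨?_, ?_, e3⟩
    · rcases f1 with f1 | f1
      · exfalso; linarith
      · rcases f2 with f2 | f2
        · linarith
        · exfalso; linarith
    · rcases f1 with f1 | f1
      · exfalso; linarith
      · linarith
  have D : ∀ i, δ (B i) (Z i) ≤ ρ (B i) := by
    intro i
    have := h.adj (B i) (Z i) (a3 i)
    rwa [max_eq_left (bz i).le] at this
  have K : ∀ i, δ 0 (B i) + δ 1 (Z i) < δ 0 (Z i) + δ 1 (B i) →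
      δ 0 (Z i) + δ 1 (B i) - δ 0 1 ≤ δ (B i) (Z i) := by
    intro i hi
    have f2 := h.four 0 (Z i) 1 (B i)
    rw [h.symm (Z i) (B i), h.symm (Z i) 1] at f2
    rw [le_max_iff] at f2
    rcases f2 with f2 | f2
    · linarith
    · exfalso; linarith
  have Q : ∀ i j, i ≠ j → δ 0 (B i) + δ 1 (Z i) < δ 0 (Z i) + δ 1 (B i) →
      δ 0 (B j) + δ 1 (Z j) < δ 0 (Z j) + δ 1 (B j) → False := by
    intro i j hij hi hj
    have k1 := K i hi
    have k2 := K j hj
    obtain ⟨p1, -, p3⟩ := P i j hij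
    obtain ⟨q1, -, q3⟩ := P j i hij.symm
    have d1 := D i
    have d2 := D j
    linarith
  have R : ∀ i j, i ≠ j → ¬ (δ 0 (B i) + δ 1 (Z i) < δ 0 (Z i) + δ 1 (B i)) →
      ¬ (δ 0 (B j) + δ 1 (Z j) < δ 0 (Z j) + δ 1 (B j)) → False := by
    intro i j hij hi hj
    obtain ⟨-, p2, -⟩ := P i j hij
    obtain ⟨-, q2, -⟩ := P j i hij.symm
    linarith
  by_cases c0 : δ 0 (B 0) + δ 1 (Z 0) < δ 0 (Z 0) + δ 1 (B 0) <;>
    by_cases c1 : δ 0 (B 1) + δ 1 (Z 1) < δ 0 (Z 1) + δ 1 (B 1) <;>
    by_cases c2 : δ 0 (B 2) + δ 1 (Z 2) < δ 0 (Z 2) + δ 1 (B 2)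
  · exact Q 0 1 (by decide) c0 c1
  · exact Q 0 1 (by decide) c0 c1
  · exact Q 0 2 (by decide) c0 c2
  · exact R 1 2 (by decide) c1 c2
  · exact Q 1 2 (by decide) c1 c2
  · exact R 0 2 (by decide) c0 c2
  · exact R 0 1 (by decide) c0 c1
  · exact R 0 1 (by decide) c0 c1

theorem caseI (h : Model δ ρ) (h15 : ρ 1 < ρ 5) : False := by
  have s1 := h.c4 5 1 6 0 (by decide) (by decide) (by decide) (by decide) (by decide) (by decide)
    (by decide) (by decide)
  have s1' : ρ 1 < ρ 5 ∧ ρ 0 < ρ 5 ∧ ρ 1 < ρ 6 ∧ ρ 0 < ρ 6 := by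
    rcases s1 with s | s
    · exact s
    · exact absurd s.1 (by linarith)
  obtain ⟨-, u5, b6, u6⟩ := s1'
  have s2 := h.c4 5 1 7 0 (by decide) (by decide) (by decide) (by decide) (by decide) (by decide)
    (by decide) (by decide)
  have s2' : ρ 1 < ρ 5 ∧ ρ 0 < ρ 5 ∧ ρ 1 < ρ 7 ∧ ρ 0 < ρ 7 := by
    rcases s2 with s | s
    · exact s
    · exact absurd s.1 (by linarith)
  obtain ⟨-, -, b7, u7⟩ := s2'
  -- the vertices v_i are below the B_j
  have v5 : ρ 11 < ρ 5 := by
    rcases h.c4 5 11 6 0 (by decide) (by decide) (by decide) (by decide) (by decide) (by decide)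
      (by decide) (by decide) with s | s
    · exact s.1
    · exact absurd s.2.2.1 (by linarith)
  have v6 : ρ 12 < ρ 6 := by
    rcases h.c4 6 12 5 0 (by decide) (by decide) (by decide) (by decide) (by decide) (by decide)
      (by decide) (by decide) with s | s
    · exact s.1
    · exact absurd s.2.2.1 (by linarith)
  have v7 : ρ 13 < ρ 7 := by
    rcases h.c4 7 13 5 0 (by decide) (by decide) (by decide) (by decide) (by decide) (by decide)
      (by decide) (by decide) with s | s
    · exact s.1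
    · exact absurd s.2.2.1 (by linarith)
  have c5 : ρ 11 < ρ 8 := by
    rcases h.c4 8 11 5 2 (by decide) (by decide) (by decide) (by decide) (by decide) (by decide)
      (by decide) (by decide) with s | s
    · exact s.1
    · exact absurd s.2.1 (by linarith)
  have c6 : ρ 12 < ρ 9 := by
    rcases h.c4 9 12 6 3 (by decide) (by decide) (by decide) (by decide) (by decide) (by decide)
      (by decide) (by decide) with s | s
    · exact s.1
    · exact absurd s.2.1 (by linarith)
  have c7 : ρ 13 < ρ 10 := by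
    rcases h.c4 10 13 7 4 (by decide) (by decide) (by decide) (by decide) (by decide) (by decide)
      (by decide) (by decide) with s | s
    · exact s.1
    · exact absurd s.2.1 (by linarith)
  have z0 : ρ 2 < ρ 1 := by
    rcases h.c4 8 11 1 2 (by decide) (by decide) (by decide) (by decide) (by decide) (by decide)
      (by decide) (by decide) with s | s
    · exact s.2.2.2
    · exact absurd s.1 (by linarith)
  have z1 : ρ 3 < ρ 1 := by
    rcases h.c4 9 12 1 3 (by decide) (by decide) (by decide) (by decide) (by decide) (by decide)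
      (by decide) (by decide) with s | s
    · exact s.2.2.2
    · exact absurd s.1 (by linarith)
  have z2 : ρ 4 < ρ 1 := by
    rcases h.c4 10 13 1 4 (by decide) (by decide) (by decide) (by decide) (by decide) (by decide)
      (by decide) (by decide) with s | s
    · exact s.2.2.2
    · exact absurd s.1 (by linarith)
  refine final (Z := ![2, 3, 4]) (B := ![5, 6, 7]) h ?_ ?_ (by decide) (by decide) (by decide)
    (by decide)
  · intro j
    fin_cases j
    · exact ⟨h15, u5⟩
    · exact ⟨b6, u6⟩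
    · exact ⟨b7, u7⟩
  · intro i
    fin_cases i
    · exact z0
    · exact z1
    · exact z2

theorem no_model (h : Model δ ρ) : False := by
  rcases h.c4 5 1 6 0 (by decide) (by decide) (by decide) (by decide) (by decide) (by decide)
    (by decide) (by decide) with s | s
  · exact caseI h s.1
  · exact caseI h.dual (by simpa using s.1)

end Pool.Agent.Work.MP_123300_co
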