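import Mathlib
import Pool.Agent.Work.MP_123300_co.Defs

set_option autoImplicit false

namespace Pool.Agent.Work.MP_123300_co

variable {M : Type} [MetricSpace M]

/-- Four-point condition on a set. -/
def FourPoint (S : Set M) : Prop :=
  ∀ a ∈ S, ∀ b ∈ S, ∀ c ∈ S, ∀ d ∈ S,
    dist a b + dist c d ≤ max (dist a c + dist b d) (dist a d + dist b c)

/-- Segments exist in `S`. -/
def Geodesic (S : Set M) : Prop :=
  ∀ a ∈ S, ∀ b ∈ S, ∀ s : ℝ, 0 ≤ s → s ≤ dist a b →
    ∃ m ∈ S, dist a m = s ∧ dist m b = dist a b - s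

theorem IsEmbeddedTree.compact {S : Set M} (h : IsEmbeddedTree S) : IsCompact S := by
  induction h with
  | point x => exact isCompact_singleton
  | attach S hS y hy ℓ hℓ γ hγ0 hγ hd ih =>
    refine ih.union (isCompact_Icc.image_of_continuousOn ?_)
    have hL : LipschitzOnWith 1 γ (Set.Icc 0 ℓ) := by
      refine LipschitzOnWith.of_dist_le_mul fun s hs s' hs' => ?_
      rw [hγ s hs s' hs', Real.dist_eq]
      simp
    exact hL.continuousOn

theorem IsEmbeddedTree.geodesic {S : Set M} (h : IsEmbeddedTree S) : Geodesic S := by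
  induction h with
  | point x =>
    intro a ha b hb s hs0 hs1
    rw [Set.mem_singleton_iff] at ha hb
    subst ha hb
    rw [dist_self] at hs1
    refine ⟨_, rfl, ?_, ?_⟩ <;> simp <;> linarith
  | attach S hS y hy ℓ hℓ γ hγ0 hγ hd ih =>
    -- a point of `S` and a point of the segment
    have key : ∀ a ∈ S, ∀ u ∈ Set.Icc (0 : ℝ) ℓ, ∀ s : ℝ, 0 ≤ s → s ≤ dist a (γ u) →
        ∃ m ∈ S ∪ γ '' Set.Icc 0 ℓ, dist a m = s ∧ dist m (γ u) = dist a (γ u) - s := by
      intro a ha u hu s hs0 hs1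
      rw [hd a ha u hu] at hs1 ⊢
      rcases le_total s (dist a y) with h | h
      · obtain ⟨m, hm, h1, h2⟩ := ih a ha y hy s hs0 h
        refine ⟨m, Or.inl hm, h1, ?_⟩
        rw [hd m hm u hu, h2]
        ring
      · have hw : s - dist a y ∈ Set.Icc (0 : ℝ) ℓ := ⟨by linarith, by linarith [hu.2]⟩
        refine ⟨γ (s - dist a y), Or.inr ⟨_, hw, rfl⟩, ?_, ?_⟩
        · rw [hd a ha _ hw]
          ring
        · rw [hγ _ hw _ hu, abs_of_nonpos (by linarith)]
          ring
    rintro a (ha | ⟨u, hu, rfl⟩) b (hb | ⟨w, hw, rfl⟩) s hs0 hs1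
    · obtain ⟨m, hm, h1, h2⟩ := ih a ha b hb s hs0 hs1
      exact ⟨m, Or.inl hm, h1, h2⟩
    · exact key a ha w hw s hs0 hs1
    · rw [dist_comm] at hs1
      obtain ⟨m, hm, h1, h2⟩ := key b hb u hu (dist b (γ u) - s) (by linarith) (by linarith)
      refine ⟨m, hm, ?_, ?_⟩
      · rw [dist_comm, h2]
        ring
      · rw [dist_comm m b, h1, dist_comm b]
    · rw [hγ u hu w hw] at hs1 ⊢
      rcases le_total u w with h | h
      · rw [abs_of_nonpos (by linarith)] at hs1 ⊢
        have hm : u + s ∈ Set.Icc (0 : ℝ) ℓ := ⟨by linarith [hu.1], by linarith [hw.2]⟩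
        refine ⟨γ (u + s), Or.inr ⟨_, hm, rfl⟩, ?_, ?_⟩
        · rw [hγ _ hu _ hm, abs_of_nonpos (by linarith)]
          ring
        · rw [hγ _ hm _ hw, abs_of_nonpos (by linarith)]
          ring
      · rw [abs_of_nonneg (by linarith)] at hs1 ⊢
        have hm : u - s ∈ Set.Icc (0 : ℝ) ℓ := ⟨by linarith [hw.1], by linarith [hu.2]⟩
        refine ⟨γ (u - s), Or.inr ⟨_, hm, rfl⟩, ?_, ?_⟩
        · rw [hγ _ hu _ hm, abs_of_nonneg (by linarith)]
          ring
        · rw [hγ _ hm _ hw, abs_of_nonneg (by linarith)]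
          ring

/-- Four-point condition on the real line. -/
theorem line4 (a b c d : ℝ) : |a - b| + |c - d| ≤ max (|a - c| + |b - d|) (|a - d| + |b - c|) := by
  rw [le_max_iff]
  rcases abs_cases (a - b) with ⟨h1, _⟩ | ⟨h1, _⟩ <;> rcases abs_cases (c - d) with ⟨h2, _⟩ | ⟨h2, _⟩ <;>
    rcases abs_cases (a - c) with ⟨h3, _⟩ | ⟨h3, _⟩ <;>
    rcases abs_cases (b - d) with ⟨h4, _⟩ | ⟨h4, _⟩ <;>
    rcases abs_cases (a - d) with ⟨h5, _⟩ | ⟨h5, _⟩ <;>
    rcases abs_cases (b - c) with ⟨h6, _⟩ | ⟨h6, _⟩ <;>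
    rw [h1, h2, h3, h4, h5, h6] <;>
    first
      | (left; linarith)
      | (right; linarith)

theorem IsEmbeddedTree.fourPoint {S : Set M} (h : IsEmbeddedTree S) : FourPoint S := by
  induction h with
  | point x =>
    intro a ha b hb c hc d hd
    rw [Set.mem_singleton_iff] at ha hb hc hd
    subst ha hb hc hd
    simp
  | attach S hS y hy ℓ hℓ γ hγ0 hγ hd ih =>
    have hd' : ∀ x ∈ S, ∀ s ∈ Set.Icc 0 ℓ, dist (γ s) x = dist x y + s := by
      intro x hx s hs
      rw [dist_comm, hd x hx s hs]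
    have tri : ∀ a ∈ S, ∀ b ∈ S, dist a b ≤ dist a y + dist b y := fun a _ b _ => by
      rw [dist_comm b y]; exact dist_triangle a y b
    have pos : ∀ a : M, 0 ≤ dist a y := fun a => dist_nonneg
    have ub : ∀ s ∈ Set.Icc (0 : ℝ) ℓ, ∀ s' ∈ Set.Icc (0 : ℝ) ℓ, |s - s'| ≤ s + s' := by
      intro s hs s' hs'
      rw [abs_le]
      constructor <;> linarith [hs.1, hs'.1]
    rintro a (ha | ⟨s1, h1, rfl⟩) b (hb | ⟨s2, h2, rfl⟩) c (hc | ⟨s3, h3, rfl⟩) d (hdd | ⟨s4, h4, rfl⟩)
    · exact ih a ha b hb c hc d hdd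
    · -- d on the segment
      have := ih a ha b hb c hc y hy
      rw [hd _ hc _ h4, hd _ hb _ h4, hd _ ha _ h4]
      rw [le_max_iff] at this ⊢
      rcases this with h | h
      · left; linarith
      · right; linarith
    · have := ih a ha b hb y hy d hdd
      rw [hd' _ hdd _ h3, hd _ ha _ h3, hd _ hb _ h3]
      rw [dist_comm y d] at this
      rw [le_max_iff] at this ⊢
      rcases this with h | h
      · left; linarith
      · right; linarith
    · -- c, d on the segment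
      rw [hγ _ h3 _ h4, hd _ ha _ h3, hd _ hb _ h4, hd _ ha _ h4, hd _ hb _ h3]
      have e1 := tri a ha b hb
      have e2 := ub _ h3 _ h4
      rw [le_max_iff]
      left; linarith
    · have := ih a ha y hy c hc d hdd
      rw [hd _ ha _ h2, hd' _ hdd _ h2, hd' _ hc _ h2]
      rw [dist_comm y d, dist_comm y c] at this
      rw [le_max_iff] at this ⊢
      rcases this with h | h
      · left; linarith
      · right; linarith
    · -- b, d on the segment
      rw [hd _ ha _ h2, hd _ hc _ h4, hγ _ h2 _ h4, hd _ ha _ h4, hd' _ hc _ h2]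
      rw [le_max_iff]
      right; linarith
    · -- b, c
      rw [hd _ ha _ h2, hd' _ hdd _ h3, hd _ ha _ h3, hd' _ hdd _ h2, hγ _ h2 _ h3]
      rw [le_max_iff]
      left; linarith
    · -- b, c, d
      rw [hd _ ha _ h2, hγ _ h3 _ h4, hd _ ha _ h3, hγ _ h2 _ h4, hd _ ha _ h4, hγ _ h2 _ h3]
      have := line4 (- dist a y) s2 s3 s4
      have p := pos a
      rw [abs_of_nonpos (by linarith [h2.1] : - dist a y - s2 ≤ 0),
        abs_of_nonpos (by linarith [h3.1] : - dist a y - s3 ≤ 0),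
        abs_of_nonpos (by linarith [h4.1] : - dist a y - s4 ≤ 0)] at this
      rw [le_max_iff] at this ⊢
      rcases this with h | h
      · left; linarith
      · right; linarith
    · have := ih y hy b hb c hc d hdd
      rw [hd' _ hb _ h1, hd' _ hc _ h1, hd' _ hdd _ h1]
      rw [dist_comm y b, dist_comm y c, dist_comm y d] at this
      rw [le_max_iff] at this ⊢
      rcases this with h | h
      · left; linarith
      · right; linarith
    · -- a, d
      rw [hd' _ hb _ h1, hd _ hc _ h4, hd' _ hc _ h1, hd _ hb _ h4, hγ _ h1 _ h4]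
      rw [le_max_iff]
      left; linarith
    · -- a, c
      rw [hd' _ hb _ h1, hd' _ hdd _ h3, hγ _ h1 _ h3, hd' _ hdd _ h1, hd _ hb _ h3]
      rw [le_max_iff]
      right; linarith
    · -- a, c, d
      rw [hd' _ hb _ h1, hγ _ h3 _ h4, hγ _ h1 _ h3, hd _ hb _ h4, hγ _ h1 _ h4, hd _ hb _ h3]
      have := line4 s1 (- dist b y) s3 s4
      have p := pos b
      rw [abs_of_nonneg (by linarith [h1.1] : 0 ≤ s1 - - dist b y),
        abs_of_nonpos (by linarith [h3.1] : - dist b y - s3 ≤ 0),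
        abs_of_nonpos (by linarith [h4.1] : - dist b y - s4 ≤ 0)] at this
      rw [le_max_iff] at this ⊢
      rcases this with h | h
      · left; linarith
      · right; linarith
    · -- a, b
      rw [hγ _ h1 _ h2, hd' _ hc _ h1, hd' _ hdd _ h2, hd' _ hdd _ h1, hd' _ hc _ h2]
      have e1 := tri c hc d hdd
      have e2 := ub _ h1 _ h2
      rw [le_max_iff]
      left; linarith
    · -- a, b, d
      rw [hγ _ h1 _ h2, hd _ hc _ h4, hd' _ hc _ h1, hγ _ h2 _ h4, hγ _ h1 _ h4, hd' _ hc _ h2]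
      have := line4 s1 s2 (- dist c y) s4
      have p := pos c
      rw [abs_of_nonpos (by linarith [h4.1] : - dist c y - s4 ≤ 0),
        abs_of_nonneg (by linarith [h1.1] : 0 ≤ s1 - - dist c y),
        abs_of_nonneg (by linarith [h2.1] : 0 ≤ s2 - - dist c y)] at this
      rw [le_max_iff] at this ⊢
      rcases this with h | h
      · left; linarith
      · right; linarith
    · -- a, b, c
      rw [hγ _ h1 _ h2, hd' _ hdd _ h3, hγ _ h1 _ h3, hd' _ hdd _ h2, hd' _ hdd _ h1, hγ _ h2 _ h3]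
      have := line4 s1 s2 s3 (- dist d y)
      have p := pos d
      rw [abs_of_nonneg (by linarith [h3.1] : 0 ≤ s3 - - dist d y),
        abs_of_nonneg (by linarith [h1.1] : 0 ≤ s1 - - dist d y),
        abs_of_nonneg (by linarith [h2.1] : 0 ≤ s2 - - dist d y)] at this
      rw [le_max_iff] at this ⊢
      rcases this with h | h
      · left; linarith
      · right; linarith
    · rw [hγ _ h1 _ h2, hγ _ h3 _ h4, hγ _ h1 _ h3, hγ _ h2 _ h4, hγ _ h1 _ h4, hγ _ h2 _ h3]
      exact line4 s1 s2 s3 s4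


theorem nbhd_bounded (S : Set M) (c : M) (r : ℝ) : Bornology.IsBounded (nbhd S c r) := by
  refine Metric.isBounded_closedBall (x := c) (r := r) |>.subset ?_
  rintro p ⟨_, hp⟩
  rw [Metric.mem_closedBall, dist_comm]
  exact hp

theorem nbhd_diam_le {S : Set M} {c : M} {r : ℝ} (hr : 0 ≤ r) :
    Metric.diam (nbhd S c r) ≤ 2 * r := by
  refine Metric.diam_le_of_forall_dist_le (by linarith) ?_
  rintro p ⟨_, hp⟩ q ⟨_, hq⟩
  have := dist_triangle_left p q c
  linarith

/-- The diameter of a neighborhood is attained. -/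
theorem exists_diam {S : Set M} (hS : IsEmbeddedTree S) {c : M} (hc : c ∈ S) {r : ℝ} (hr : 0 ≤ r) :
    ∃ p ∈ nbhd S c r, ∃ q ∈ nbhd S c r, dist p q = Metric.diam (nbhd S c r) := by
  have hcomp : IsCompact (nbhd S c r) := by
    have : nbhd S c r = S ∩ Metric.closedBall c r := by
      ext p
      simp only [nbhd, Metric.mem_closedBall, Set.mem_inter_iff, Set.mem_setOf_eq, dist_comm]
    rw [this]
    exact hS.compact.inter_right Metric.isClosed_closedBall
  have hne : (nbhd S c r ×ˢ nbhd S c r).Nonempty :=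
    ⟨(c, c), ⟨hc, by simpa using hr⟩, ⟨hc, by simpa using hr⟩⟩
  obtain ⟨⟨p, q⟩, ⟨hp, hq⟩, hmax⟩ :=
    (hcomp.prod hcomp).exists_isMaxOn hne (f := fun x : M × M => dist x.1 x.2)
      continuous_dist.continuousOn
  refine ⟨p, hp, q, hq, le_antisymm ?_ ?_⟩
  · exact Metric.dist_le_diam_of_mem (nbhd_bounded S c r) hp hq
  · refine Metric.diam_le_of_forall_dist_le dist_nonneg ?_
    intro x hx y hy
    exact hmax (Set.mk_mem_prod hx hy)

/-- From `c₁`, there is a point at distance `r₁` away from `c₂`. -/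
theorem exists_away {S : Set M} (hS : IsEmbeddedTree S) {c₁ c₂ : M} (h₁ : c₁ ∈ S) (h₂ : c₂ ∈ S)
    {r : ℝ} (hr : 0 ≤ r) (hdiam : Metric.diam (nbhd S c₁ r) = 2 * r) :
    ∃ p ∈ S, dist c₁ p = r ∧ dist p c₂ = r + dist c₁ c₂ := by
  obtain ⟨p, ⟨hp, hp'⟩, q, ⟨hq, hq'⟩, hpq⟩ := exists_diam hS h₁ hr
  rw [hdiam] at hpq
  have e1 := dist_triangle_left p q c₁
  have ep : dist c₁ p = r := by linarith
  have eq : dist c₁ q = r := by linarith
  have h4 := hS.fourPoint p hp q hq c₁ h₁ c₂ h₂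
  rw [hpq, dist_comm p c₁, dist_comm q c₁, ep, eq, le_max_iff] at h4
  rcases h4 with h | h
  · refine ⟨q, hq, eq, ?_⟩
    have := dist_triangle_left q c₂ c₁
    rw [eq] at this
    linarith
  · refine ⟨p, hp, ep, ?_⟩
    have := dist_triangle_left p c₂ c₁
    rw [ep] at this
    linarith

/-- The size of the intersection of two neighborhood subtrees. -/
theorem size_iff {S : Set M} (hS : IsEmbeddedTree S) {c₁ c₂ : M} (h₁ : c₁ ∈ S) (h₂ : c₂ ∈ S)
    {r₁ r₂ m : ℝ} (hr₁ : 0 < r₁) (hr₂ : 0 < r₂) (hm : 0 < m)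
    (hd₁ : Metric.diam (nbhd S c₁ r₁) = 2 * r₁) (hd₂ : Metric.diam (nbhd S c₂ r₂) = 2 * r₂) :
    ((nbhd S c₁ r₁ ∩ nbhd S c₂ r₂).Nonempty ∧ m ≤ Metric.diam (nbhd S c₁ r₁ ∩ nbhd S c₂ r₂)) ↔
      m ≤ 2 * r₁ ∧ m ≤ 2 * r₂ ∧ m ≤ r₁ + r₂ - dist c₁ c₂ := by
  constructor
  · rintro ⟨⟨p0, ⟨hp0, hp1⟩, ⟨_, hp2⟩⟩, hm'⟩
    have b1 : Metric.diam (nbhd S c₁ r₁ ∩ nbhd S c₂ r₂) ≤ 2 * r₁ :=
      (Metric.diam_mono Set.inter_subset_left (nbhd_bounded S c₁ r₁)).trans (nbhd_diam_le hr₁.le)
    have b2 : Metric.diam (nbhd S c₁ r₁ ∩ nbhd S c₂ r₂) ≤ 2 * r₂ :=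
      (Metric.diam_mono Set.inter_subset_right (nbhd_bounded S c₂ r₂)).trans (nbhd_diam_le hr₂.le)
    have b3 : Metric.diam (nbhd S c₁ r₁ ∩ nbhd S c₂ r₂) ≤ r₁ + r₂ - dist c₁ c₂ := by
      have := dist_triangle_right c₁ c₂ p0
      refine Metric.diam_le_of_forall_dist_le (by linarith) ?_
      rintro p ⟨⟨hp, ha1⟩, ⟨_, ha2⟩⟩ q ⟨⟨hq, hb1⟩, ⟨_, hb2⟩⟩
      have h4 := hS.fourPoint p hp q hq c₁ h₁ c₂ h₂
      rw [dist_comm p c₁, dist_comm q c₁, dist_comm p c₂, dist_comm q c₂, le_max_iff] at h4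
      rcases h4 with h | h <;> linarith
    exact ⟨hm'.trans b1, hm'.trans b2, hm'.trans b3⟩
  · rintro ⟨m1, m2, m3⟩
    have bdd : Bornology.IsBounded (nbhd S c₁ r₁ ∩ nbhd S c₂ r₂) :=
      (nbhd_bounded S c₁ r₁).subset Set.inter_subset_left
    rcases le_or_gt (dist c₁ c₂) (r₂ - r₁) with hcase | hcase
    · -- the first is contained in the second
      have hsub : nbhd S c₁ r₁ ⊆ nbhd S c₂ r₂ := by
        rintro p ⟨hp, hp1⟩
        refine ⟨hp, ?_⟩
        have := dist_triangle_left c₂ p c₁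
        linarith
      rw [Set.inter_eq_left.2 hsub, hd₁]
      exact ⟨⟨c₁, h₁, by simpa using hr₁.le⟩, m1⟩
    rcases le_or_gt (dist c₁ c₂) (r₁ - r₂) with hcase' | hcase'
    · have hsub : nbhd S c₂ r₂ ⊆ nbhd S c₁ r₁ := by
        rintro p ⟨hp, hp1⟩
        refine ⟨hp, ?_⟩
        have := dist_triangle c₁ c₂ p
        linarith
      rw [Set.inter_eq_right.2 hsub, hd₂]
      exact ⟨⟨c₂, h₂, by simpa using hr₂.le⟩, m2⟩
    -- the general case
    obtain ⟨P, hP, hP1, hP2⟩ := exists_away hS h₁ h₂ hr₁.le hd₁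
    obtain ⟨Q, hQ, hQ1, hQ2⟩ := exists_away hS h₂ h₁ hr₂.le hd₂
    have hdpos : 0 < dist c₁ c₂ := by linarith
    have hPQ : dist P Q = r₁ + dist c₁ c₂ + r₂ := by
      apply le_antisymm
      · have e1 := dist_triangle P c₁ Q
        have e2 := dist_triangle c₁ c₂ Q
        rw [dist_comm P c₁] at e1
        linarith
      · have h4 := hS.fourPoint P hP c₂ h₂ c₁ h₁ Q hQ
        rw [hP2, dist_comm c₁ Q, hQ2, dist_comm P c₁, hP1, dist_comm c₂ c₁, hQ1,
          le_max_iff] at h4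
        rcases h4 with h | h
        · linarith
        · linarith
    -- the two ends of the intersection on the geodesic from `P` to `Q`
    have onpath : ∀ m ∈ S, ∀ s : ℝ, dist P m = s → dist m Q = dist P Q - s →
        dist c₁ m = |s - r₁| ∧ dist c₂ m = |r₁ + dist c₁ c₂ - s| := by
      intro x hx s hx1 hx2
      rw [hPQ] at hx2
      constructor
      · apply le_antisymm
        · -- four-point with P, Q, c₁, x
          have h4 := hS.fourPoint P hP Q hQ c₁ h₁ x hx
          have e : dist c₁ Q = dist c₁ c₂ + r₂ := by rw [dist_comm, hQ2, dist_comm c₂ c₁]; ring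
          rw [hPQ, dist_comm P c₁, hP1, dist_comm Q x, hx2, hx1, dist_comm Q c₁, e, le_max_iff] at h4
          rcases h4 with h | h
          · exact (by linarith : dist c₁ x ≤ r₁ - s).trans (by rw [abs_sub_comm]; exact le_abs_self _)
          · exact (by linarith : dist c₁ x ≤ s - r₁).trans (le_abs_self _)
        · rw [abs_le]
          have e1 := dist_triangle P x c₁
          have e2 := dist_triangle P c₁ x
          rw [dist_comm P c₁] at e1 e2
          rw [dist_comm x c₁] at e1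
          constructor <;> linarith
      · apply le_antisymm
        · have h4 := hS.fourPoint P hP Q hQ c₂ h₂ x hx
          rw [hPQ, hP2, dist_comm Q x, hx2, hx1, dist_comm Q c₂, hQ1, le_max_iff] at h4
          rcases h4 with h | h
          · exact (by linarith : dist c₂ x ≤ r₁ + dist c₁ c₂ - s).trans (le_abs_self _)
          · exact (by linarith : dist c₂ x ≤ s - (r₁ + dist c₁ c₂)).trans
              (by rw [abs_sub_comm]; exact le_abs_self _)
        · rw [abs_le]
          have e1 := dist_triangle P x c₂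
          have e2 := dist_triangle P c₂ x
          rw [dist_comm x c₂] at e1
          constructor <;> linarith
    obtain ⟨p, hp, hp1, hp2⟩ := hS.geodesic P hP Q hQ (r₁ + dist c₁ c₂ - r₂) (by linarith)
      (by rw [hPQ]; linarith)
    obtain ⟨q, hq, hq1, hq2⟩ := hS.geodesic P hP Q hQ (2 * r₁) (by linarith) (by rw [hPQ]; linarith)
    obtain ⟨p3, p4⟩ := onpath p hp _ hp1 hp2
    obtain ⟨q3, q4⟩ := onpath q hq _ hq1 hq2
    have hpm : p ∈ nbhd S c₁ r₁ ∩ nbhd S c₂ r₂ := by
      refine ⟨⟨hp, ?_⟩, ⟨hp, ?_⟩⟩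
      · rw [p3, abs_le]; constructor <;> linarith
      · rw [p4, abs_le]; constructor <;> linarith
    have hqm : q ∈ nbhd S c₁ r₁ ∩ nbhd S c₂ r₂ := by
      refine ⟨⟨hq, ?_⟩, ⟨hq, ?_⟩⟩
      · rw [q3, abs_le]; constructor <;> linarith
      · rw [q4, abs_le]; constructor <;> linarith
    refine ⟨⟨p, hpm⟩, ?_⟩
    refine le_trans ?_ (Metric.dist_le_diam_of_mem bdd hpm hqm)
    have := dist_triangle P p q
    rw [hp1, hq1] at this
    linarith

end Pool.Agent.Work.MP_123300_co
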