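import Mathlib
import Pool.Agent.Work.MP_123300_co.Tree
import Pool.Agent.Work.MP_123300_co.Core

set_option autoImplicit false

namespace Pool.Agent.Work.MP_123300_co

open Finset

/-- `ℝ^9` with the `ℓ_1` metric. -/
def L1 : Type := Fin 9 → ℝ

noncomputable instance : MetricSpace L1 where
  dist x y := ∑ k, |x k - y k|
  dist_self x := by simp
  dist_comm x y := by
    refine sum_congr rfl fun k _ => ?_
    rw [abs_sub_comm]
  dist_triangle x y z := by
    rw [← sum_add_distrib]
    exact sum_le_sum fun k _ => abs_sub_le _ _ _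
  eq_of_dist_eq_zero := by
    intro x y h
    funext k
    have := (sum_eq_zero_iff_of_nonneg (fun k _ => abs_nonneg (x k - y k))).1 h k (mem_univ k)
    linarith [abs_eq_zero.1 this]

theorem L1.dist_def (x y : L1) : dist x y = ∑ k, |x k - y k| := rfl

/-- `y + s e_k`. -/
def ray (y : L1) (k : Fin 9) (s : ℝ) : L1 := fun j => if j = k then y j + s else y j

theorem ray_zero (y : L1) (k : Fin 9) : ray y k 0 = y := by
  funext j
  simp [ray]

theorem dist_ray_ray (y : L1) (k : Fin 9) (s s' : ℝ) :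
    dist (ray y k s) (ray y k s') = |s - s'| := by
  rw [L1.dist_def, sum_eq_single k]
  · simp [ray]
  · intro j _ hj
    simp [ray, hj]
  · simp

theorem dist_ray (x y : L1) (k : Fin 9) (s : ℝ) (hx : x k = 0) (hy : y k = 0) (hs : 0 ≤ s) :
    dist x (ray y k s) = dist x y + s := by
  rw [L1.dist_def, L1.dist_def]
  have h : ∀ j, |x j - ray y k s j| = |x j - y j| + if j = k then s else 0 := by
    intro j
    by_cases hj : j = k
    · subst hj
      simp [ray, hx, hy, abs_of_nonneg hs]
    · simp [ray, hj]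
  simp_rw [h, sum_add_distrib]
  simp

/-- Integer coordinates of the point number `p.2` on the branch number `p.1`. Branches `0, 1, 2`
start at the origin; branches `3 + i` and `6 + i` start at distance `3` on branch `i`. -/
def X (p : Fin 9 × ℤ) (k : Fin 9) : ℤ :=
  (if k = p.1 then p.2 else 0) + (if 3 ≤ p.1.val ∧ k.val = p.1.val % 3 then 3 else 0)

/-- The corresponding point of `L1`. -/
def R (p : Fin 9 × ℤ) : L1 := fun k => (X p k : ℝ)

/-- Length of the branches. -/
def len (j : ℕ) : ℝ := if j < 3 then 3 else 10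

/-- The tree with the first `m` branches. -/
def T (m : ℕ) : Set L1 :=
  match m with
  | 0 => {R (0, 0)}
  | m + 1 => T m ∪ ray (R (Fin.ofNat 9 m, 0)) (Fin.ofNat 9 m) '' Set.Icc 0 (len m)

theorem ray_R (j : Fin 9) (s : ℤ) : ray (R (j, 0)) j s = R (j, s) := by
  funext k
  unfold ray R X
  by_cases h : k = j
  · subst h
    push_cast
    simp
    ring
  · simp [h]

theorem T_mono {m m' : ℕ} (h : m ≤ m') : T m ⊆ T m' := by
  induction h with
  | refl => exact subset_rfl
  | step _ ih => exact ih.trans Set.subset_union_left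

theorem mem_T {m j : ℕ} (hj : j < m) (s : ℤ) (h0 : 0 ≤ s) (h1 : (s : ℝ) ≤ len j) :
    R (Fin.ofNat 9 j, s) ∈ T m := by
  apply T_mono (Nat.succ_le_of_lt hj)
  refine Or.inr ⟨s, ⟨by exact_mod_cast h0, h1⟩, ray_R _ _⟩

theorem zero_mem (m : ℕ) : R (0, 0) ∈ T m := T_mono (Nat.zero_le m) rfl

theorem base_mem {m : ℕ} (hm : m < 9) : R (Fin.ofNat 9 m, 0) ∈ T m := by
  by_cases h : m < 3
  · have : R (Fin.ofNat 9 m, 0) = R (0, 0) := by
      funext k
      unfold R X
      have h9 : (Fin.ofNat 9 m).val = m := by simp [Fin.ofNat]; omega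
      simp only [h9]
      have e : ¬ (3 ≤ m) := by omega
      simp [e]
    rw [this]
    exact zero_mem m
  · have h3 : R (Fin.ofNat 9 m, 0) = R (Fin.ofNat 9 (m % 3), 3) := by
      funext k
      unfold R X
      have h9 : (Fin.ofNat 9 m).val = m := by simp [Fin.ofNat]; omega
      have h9' : (Fin.ofNat 9 (m % 3)).val = m % 3 := by simp [Fin.ofNat]; omega
      have hk : k = Fin.ofNat 9 (m % 3) ↔ k.val = m % 3 := by
        rw [Fin.ext_iff, h9']
      simp only [h9, h9', hk]
      have e : 3 ≤ m := by omega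
      have e' : ¬ (3 ≤ m % 3) := by omega
      simp [e, e']
    rw [h3]
    refine mem_T (by omega) 3 (by norm_num) ?_
    have : m % 3 < 3 := by omega
    simp [len, this]

theorem T_coord (m : ℕ) (hm : m ≤ 9) : ∀ x ∈ T m, ∀ k : Fin 9, m ≤ k.val → x k = 0 := by
  induction m with
  | zero =>
    intro x hx k _
    have hx' : x = R (0, 0) := hx
    rw [hx']
    simp [R, X]
  | succ m ih =>
    rintro x (hx | ⟨s, hs, rfl⟩) k hk
    · exact ih (by omega) x hx k (by omega)
    · have h9 : (Fin.ofNat 9 m).val = m := by simp [Fin.ofNat]; omega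
      have hne : k ≠ Fin.ofNat 9 m := by
        intro h
        rw [h, h9] at hk
        omega
      have hne' : ¬ (3 ≤ m ∧ k.val = m % 3) := by omega
      unfold ray R X
      simp only [h9, if_neg hne, if_neg hne']
      simp

theorem T_tree (m : ℕ) (hm : m ≤ 9) : IsEmbeddedTree (T m) := by
  induction m with
  | zero => exact IsEmbeddedTree.point _
  | succ m ih =>
    have h9 : (Fin.ofNat 9 m).val = m := by simp [Fin.ofNat]; omega
    have hb := base_mem (m := m) (by omega)
    have hy := T_coord m (by omega) _ hb (Fin.ofNat 9 m) h9.ge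
    refine IsEmbeddedTree.attach (T m) (ih (by omega)) (R (Fin.ofNat 9 m, 0)) hb (len m) ?_
      (ray (R (Fin.ofNat 9 m, 0)) (Fin.ofNat 9 m)) (ray_zero _ _) ?_ ?_
    · unfold len
      split_ifs <;> norm_num
    · intro s _ s' _
      exact dist_ray_ray _ _ _ _
    · intro x hx s hs
      exact dist_ray _ _ _ _ (T_coord m (by omega) x hx _ h9.ge) hy hs.1

/-- Integer `ℓ_1` distance. -/
def dZ (p q : Fin 9 × ℤ) : ℤ := ∑ k, |X p k - X q k|

theorem dist_R (p q : Fin 9 × ℤ) : dist (R p) (R q) = (dZ p q : ℝ) := by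
  rw [L1.dist_def]
  unfold dZ R
  push_cast
  rfl

/-- Membership test. -/
def good (p : Fin 9 × ℤ) : Prop := 0 ≤ p.2 ∧ p.2 ≤ if p.1.val < 3 then 3 else 10

instance (p : Fin 9 × ℤ) : Decidable (good p) := by unfold good; infer_instance

theorem good.mem {p : Fin 9 × ℤ} (h : good p) : R p ∈ T 9 := by
  obtain ⟨j, s⟩ := p
  obtain ⟨h0, h1⟩ := h
  simp only at h0 h1
  have := mem_T (m := 9) j.isLt s h0 (by
    unfold len
    split_ifs at h1 ⊢ with h
    · exact_mod_cast h1
    · exact_mod_cast h1)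
  have e : Fin.ofNat 9 j.val = j := by
    apply Fin.ext
    simp [Fin.ofNat]
  rwa [e] at this

/-- Centers. -/
def cz : Fin 14 → Fin 9 × ℤ :=
  ![(0, 0), (0, 0), (0, 3), (1, 3), (2, 3), (3, 2), (4, 2), (5, 2), (6, 6), (7, 6), (8, 6),
    (0, 2), (1, 2), (2, 2)]

/-- Radii. -/
def rz : Fin 14 → ℤ := ![2, 4, 4, 4, 4, 4, 4, 4, 4, 4, 4, 4, 4, 4]

/-- Tolerances. -/
def tz : Fin 14 → ℤ := ![9, 5, 8, 8, 8, 1, 1, 1, 1, 1, 1, 8, 8, 8]

/-- Two opposite points of the neighborhood subtrees. -/
def Pz : Fin 14 → Fin 9 × ℤ :=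
  ![(0, 2), (3, 1), (3, 4), (4, 4), (5, 4), (3, 6), (4, 6), (5, 6), (6, 10), (7, 10), (8, 10),
    (3, 3), (4, 3), (5, 3)]

/-- Two opposite points of the neighborhood subtrees. -/
def Qz : Fin 14 → Fin 9 × ℤ :=
  ![(1, 2), (4, 1), (6, 4), (7, 4), (8, 4), (0, 1), (1, 1), (2, 1), (6, 2), (7, 2), (8, 2),
    (1, 2), (2, 2), (0, 2)]

theorem checkP : ∀ v, good (cz v) ∧ good (Pz v) ∧ good (Qz v) ∧ dZ (cz v) (Pz v) = rz v ∧
    dZ (cz v) (Qz v) = rz v ∧ dZ (Pz v) (Qz v) = 2 * rz v := by decide +kernel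

theorem checkAdj : ∀ x y, x ≠ y → (adjB x y = true ↔ (min (tz x) (tz y) ≤ 2 * rz x ∧
    min (tz x) (tz y) ≤ 2 * rz y ∧ min (tz x) (tz y) ≤ rz x + rz y - dZ (cz x) (cz y))) := by
  decide +kernel

theorem posr : ∀ v, 0 < rz v := by decide

theorem post : ∀ v, 0 < tz v := by decide

theorem size_rep (v : Fin 14) :
    Metric.diam (nbhd (T 9) (R (cz v)) (rz v : ℝ)) = 2 * (rz v : ℝ) := by
  obtain ⟨h1, h2, h3, h4, h5, h6⟩ := checkP v
  have hr : (0 : ℝ) ≤ (rz v : ℝ) := by exact_mod_cast (posr v).le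
  refine le_antisymm (nbhd_diam_le hr) ?_
  have e : (2 * (rz v : ℝ)) = dist (R (Pz v)) (R (Qz v)) := by
    rw [dist_R, h6]
    push_cast
    ring
  rw [e]
  apply Metric.dist_le_diam_of_mem (nbhd_bounded _ _ _)
  · refine ⟨h2.mem, ?_⟩
    rw [dist_R, h4]
  · refine ⟨h3.mem, ?_⟩
    rw [dist_R, h5]

theorem isNeST : IsNeST G14 := by
  refine ⟨L1, inferInstance, T 9, fun v => R (cz v), fun v => (rz v : ℝ), fun v => (tz v : ℝ), ?_⟩
  refine ⟨T_tree 9 le_rfl, fun v => (checkP v).1.mem, ?_, ?_, size_rep, ?_⟩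
  · intro v
    exact_mod_cast posr v
  · intro v
    exact_mod_cast post v
  · intro x y hxy
    have hrx : (0 : ℝ) < rz x := by exact_mod_cast posr x
    have hry : (0 : ℝ) < rz y := by exact_mod_cast posr y
    have hm : (0 : ℝ) < min (tz x : ℝ) (tz y : ℝ) := by
      rw [lt_min_iff]
      exact ⟨by exact_mod_cast post x, by exact_mod_cast post y⟩
    rw [size_iff (T_tree 9 le_rfl) (checkP x).1.mem (checkP y).1.mem hrx hry hm (size_rep x)
      (size_rep y), dist_R]
    change adjB x y = true ↔ _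
    rw [checkAdj x y hxy]
    norm_cast

theorem not_isBoundedNeST : ¬ IsBoundedNeST G14 := by
  rintro ⟨M, _, S, c, r, t, hrep, hb⟩
  have key : ∀ x y, x ≠ y → (adjB x y = true ↔
      dist (c x) (c y) - r x - r y ≤ max (- t x) (- t y)) := by
    intro x y hxy
    have h := hrep.adj_iff x y hxy
    have hm : 0 < min (t x) (t y) := lt_min (hrep.tolerance_pos x) (hrep.tolerance_pos y)
    rw [size_iff hrep.tree (hrep.center_mem x) (hrep.center_mem y) (hrep.radius_pos x)
      (hrep.radius_pos y) hm (hrep.size_eq x) (hrep.size_eq y)] at h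
    change adjB x y = true ↔ _ at h
    rw [h, max_neg_neg]
    constructor
    · rintro ⟨-, -, h3⟩
      linarith
    · intro h3
      exact ⟨(min_le_left _ _).trans (hb x), (min_le_right _ _).trans (hb y), by linarith⟩
  refine no_model (δ := fun x y => dist (c x) (c y) - r x - r y) (ρ := fun x => - t x)
    ⟨?_, ?_, ?_, ?_⟩
  · intro x y
    rw [dist_comm]
    ring
  · intro x y z w
    have := hrep.tree.fourPoint _ (hrep.center_mem x) _ (hrep.center_mem y) _ (hrep.center_mem z) _
      (hrep.center_mem w)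
    rw [le_max_iff] at this ⊢
    rcases this with h | h
    · left; linarith
    · right; linarith
  · intro x y hxy
    have hne : x ≠ y := by
      rintro rfl
      revert hxy
      revert x
      decide
    exact (key x y hne).1 hxy
  · intro x y hne hxy
    rw [← not_le]
    intro hle
    have := (key x y hne).2 hle
    rw [hxy] at this
    exact absurd this (by decide)

theorem main : ∃ G : SimpleGraph (Fin 14), IsNeST G ∧ ¬ IsBoundedNeST G :=
  ⟨G14, isNeST, not_isBoundedNeST⟩

end Pool.Agent.Work.MP_123300_co
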